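import Pool.Agent.HP25.FD.C
import Pool.Agent.TH894.SM0

/-!
# The order of magnitude (and the asymptotic formula) for binary Goldbach representation numbers, for ALL even integers
near the multiples `λ_k x` of all real numbers `x > 0` outside a set of Fourier dimension zero

Let `λ_k ≥ exp (k ^ c)` for some `c > 0` (for example `λ_k = 2 ^ k`). Let `E` be the set of the real numbers `x > 0` for
which the conclusion fails for arbitrarily large `k`. It is shown that `ν (E) = 0` for every probability measure `ν` on a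
bounded interval whose Fourier transform decays at least as fast as some power `|t| ^ (-δ)`, `δ > 0`; in other words, `E`
has Fourier dimension zero. There are such measures on many sets of Lebesgue measure zero (sets of badly approximable
numbers, images of the Cantor set under `x ↦ x ^ 2`, Salem sets of any dimension).

The new ingredients (`Pool.Agent.HP25.FD`): the approximation of a measure on the line by uniform finite families, and the
bound for the moments of these families, at all scales, in terms of the Fourier transform of the measure. From the starting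
files: the transfer from additive energy to Goldbach representations (`Pool.Agent.R459.near_even`).
-/

set_option autoImplicit false

namespace Pool.Agent.Results.MP_629a14_nt.FourierDimensionZero

open Finset Filter Topology MeasureTheory

/-- `ν` is a probability measure on `[0, T]` whose Fourier transform is at most `C |t| ^ (-δ)`. -/
structure PowerDecay (ν : Measure ℝ) (T : ℕ) (C δ : ℝ) : Prop where
  prob : IsProbabilityMeasure ν
  supp : ν (Set.Icc (0 : ℝ) T)ᶜ = 0
  decay : ∀ t : ℝ, ‖charFun ν t‖ * |t| ^ δ ≤ C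

/-- The twin prime constant `∏_{p > 2} (1 - 1 / (p - 1) ^ 2)`, as the infimum of the decreasing partial products. -/
noncomputable def C₂ : ℝ := ⨅ z : ℕ, ∏ p ∈ (Icc 3 z).filter Nat.Prime, (1 - 1 / ((p : ℝ) - 1) ^ 2)

/-- The singular series `2 C₂ ∏_{p ∣ m, p > 2} (p - 1) / (p - 2)` of an even number `m`. -/
noncomputable def sing (m : ℕ) : ℝ :=
  2 * C₂ * ∏ p ∈ m.primeFactors.filter (fun p => 2 < p), ((p : ℝ) - 1) / ((p : ℝ) - 2)

/-- The number of primes `p`, `y₁ < p ≤ y₂`, for which `m - p` is a prime (used for `y₂ ≤ m`; for `y₁ = 0` and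
`y₂ = m` this is the number of ordered representations of `m` as a sum of two primes). -/
def R (m y₁ y₂ : ℕ) : ℕ := ((Ioc y₁ y₂).filter (fun p => p.Prime ∧ (m - p).Prime)).card

/-- For all `y₁ < y₂ ≤ m` with `y₂ - y₁ ≥ m / log ^ A m`, the number `R m y₁ y₂` agrees with the prediction
`sing m * (y₂ - y₁) / log ^ 2 m` up to a relative error of at most `ε`, and lies between `(1 - ε) C₂` and `1 + ε`
times `(y₂ - y₁) m / (φ(m) log ^ 2 m)`. -/
def Holds (ε : ℝ) (A m : ℕ) : Prop :=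
  ∀ y₁ y₂ : ℕ, y₁ < y₂ → y₂ ≤ m → (m : ℝ) / Real.log m ^ A ≤ (y₂ : ℝ) - y₁ →
    |(R m y₁ y₂ : ℝ) - sing m * ((y₂ : ℝ) - y₁) / Real.log m ^ 2| ≤ ε * (sing m * ((y₂ : ℝ) - y₁) / Real.log m ^ 2) ∧
    (1 - ε) * C₂ * (((y₂ : ℝ) - y₁) * m / (m.totient * Real.log m ^ 2)) ≤ R m y₁ y₂ ∧
    (R m y₁ y₂ : ℝ) ≤ (1 + ε) * (((y₂ : ℝ) - y₁) * m / (m.totient * Real.log m ^ 2))

lemma C₂_nonneg : 0 ≤ C₂ := by
  unfold C₂
  apply Real.iInf_nonneg
  intro z
  apply prod_nonneg
  intro p hp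
  rw [mem_filter, mem_Icc] at hp
  exact (Pool.Agent.TH894.SM.fac_pos p hp.1.1).le

lemma sing_nonneg (m : ℕ) : 0 ≤ sing m := by
  unfold sing
  apply mul_nonneg (mul_nonneg (by norm_num) C₂_nonneg)
  apply prod_nonneg
  intro p hp
  rw [mem_filter] at hp
  have : (2 : ℝ) < p := by exact_mod_cast hp.2
  apply div_nonneg <;> linarith

lemma holds_mono (ε ε' : ℝ) (A m : ℕ) (hε : ε ≤ ε') (h : Holds ε A m) : Holds ε' A m := by
  intro y₁ y₂ h12 hy hlen
  obtain ⟨h1, h2, h3⟩ := h y₁ y₂ h12 hy hlen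
  have hy' : (0 : ℝ) ≤ (y₂ : ℝ) - y₁ := by
    have : (y₁ : ℝ) < y₂ := by exact_mod_cast h12
    linarith
  have hs := sing_nonneg m
  have hC := C₂_nonneg
  have hX : 0 ≤ ((y₂ : ℝ) - y₁) * m / (m.totient * Real.log m ^ 2) := by positivity
  refine ⟨h1.trans ?_, le_trans ?_ h2, h3.trans ?_⟩
  · exact mul_le_mul_of_nonneg_right hε (by positivity)
  · apply mul_le_mul_of_nonneg_right _ hX
    exact mul_le_mul_of_nonneg_right (by linarith) hC
  · exact mul_le_mul_of_nonneg_right (by linarith) hX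

lemma holds_of (ε : ℝ) (A : ℕ) (hε : 0 < ε) (m : ℕ) (hm : 3 ≤ m) (h2 : 2 ∣ m)
    (h : Pool.Agent.W93.PG.WinP ε A m) : Holds ε A m := by
  intro y₁ y₂ h12 hy hlen
  have h1 := h y₁ y₂ h12 hy hlen
  have e0 : Pool.Agent.W93.PG.cnt m y₁ y₂ = R m y₁ y₂ := rfl
  have e1 : Pool.Agent.H560R3.GB.sing m = sing m := rfl
  rw [e0, e1] at h1
  refine ⟨h1, ?_⟩
  have hn0 : m ≠ 0 := by omega
  have hnr : (0 : ℝ) < m := by exact_mod_cast Nat.pos_of_ne_zero hn0
  have hl : 0 < Real.log m := Real.log_pos (by exact_mod_cast (by omega : 1 < m))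
  have ht : (0 : ℝ) < m.totient := by exact_mod_cast Nat.totient_pos.2 (Nat.pos_of_ne_zero hn0)
  obtain ⟨s1, s2⟩ := Pool.Agent.TH894.SM.sing_tot m hn0 h2
  have e2 : Pool.Agent.H560R3.GB.C₂ = C₂ := rfl
  rw [e1] at s1 s2
  rw [e2] at s1
  have hC := C₂_nonneg
  have hy' : (y₁ : ℝ) < y₂ := by exact_mod_cast h12
  obtain ⟨Q, hQ⟩ : ∃ Q : ℝ, Q = ((y₂ : ℝ) - y₁) / Real.log m ^ 2 := ⟨_, rfl⟩
  have hQ0 : 0 < Q := by
    rw [hQ]
    apply div_pos (by linarith) (by positivity)
  have e : ((y₂ : ℝ) - y₁) * m / (m.totient * Real.log m ^ 2) = m / m.totient * Q := by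
    rw [hQ]
    field_simp
  have hHL : sing m * ((y₂ : ℝ) - y₁) / Real.log m ^ 2 = sing m * Q := by
    rw [hQ]
    ring
  rw [hHL, abs_le] at h1
  rw [e]
  constructor
  · rcases le_or_gt ε 1 with hε1 | hε1
    · have h3 : (1 - ε) * (C₂ * (m / m.totient) * Q) ≤ (1 - ε) * (sing m * Q) := by
        apply mul_le_mul_of_nonneg_left _ (by linarith)
        exact mul_le_mul_of_nonneg_right s1 hQ0.le
      have e2 : (1 - ε) * C₂ * (m / m.totient * Q) = (1 - ε) * (C₂ * (m / m.totient) * Q) := by ring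
      rw [e2]
      linarith [h1.1]
    · have h3 : (1 - ε) * C₂ * (m / m.totient * Q) ≤ 0 := by
        apply mul_nonpos_of_nonpos_of_nonneg _ (by positivity)
        exact mul_nonpos_of_nonpos_of_nonneg (by linarith) hC
      exact h3.trans (Nat.cast_nonneg _)
  · have h3 : (1 + ε) * (sing m * Q) ≤ (1 + ε) * (m / m.totient * Q) := by
      apply mul_le_mul_of_nonneg_left _ (by linarith)
      exact mul_le_mul_of_nonneg_right s2 hQ0.le
    linarith [h1.2]

/-- (1) Let `A`, `W`, `U`, `T`, `C`, `δ > 0` and `ε > 0` be fixed, let the real number `N` be large, and let `ν` be any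
probability measure on `[0, T]` whose Fourier transform is at most `C |t| ^ (-δ)`. Then for all real `x`, with the exception
of a set of `ν`-measure at most `1 / log ^ U N`, ALL the even integers `m > 0` with `|m - N x| ≤ log ^ W N` have the
following property: for all `y₁ < y₂ ≤ m` with `y₂ - y₁ ≥ m / log ^ A m`, the number of the representations `m = p + q` with
primes `p`, `q` and `y₁ < p ≤ y₂` agrees with the prediction of Hardy and Littlewood up to a relative error of at most `ε`,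
and lies between `(1 - ε) C₂` and `1 + ε` times `(y₂ - y₁) m / (φ(m) log ^ 2 m)` (for `y₁ = 0`, `y₂ = m` this is the order
of magnitude in the problem).

(2) Let `ν` be a probability measure on a bounded interval `[0, T]` whose Fourier transform decays at least as fast as some
power `|t| ^ (-δ)`, `δ > 0`, and let `λ_k ≥ exp (k ^ c)` for all large `k`, where `c > 0`. Then `ν`-almost every `x` has the
following property: for all `A`, `W` and `ε > 0`, for all large `k`, ALL the even integers `m > 0` with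
`|m - λ_k x| ≤ log ^ W λ_k` have the property in (1). In other words, the set of the exceptional `x` has Fourier dimension
zero. -/
theorem result :
    (∀ (A W U T : ℕ) (C δ ε : ℝ), 0 < δ → 0 < ε → ∃ N₀ : ℕ, ∀ N : ℝ, (N₀ : ℝ) ≤ N → ∀ ν : Measure ℝ, PowerDecay ν T C δ →
      ν.real {x | ∃ m : ℕ, 0 < m ∧ Even m ∧ |(m : ℝ) - N * x| ≤ Real.log N ^ W ∧ ¬ Holds ε A m} ≤ 1 / Real.log N ^ U) ∧
    (∀ (T : ℕ) (C δ : ℝ), 0 < δ → ∀ ν : Measure ℝ, PowerDecay ν T C δ → ∀ (lam : ℕ → ℝ) (c : ℝ), 0 < c →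
      (∀ᶠ k : ℕ in atTop, Real.exp ((k : ℝ) ^ c) ≤ lam k) →
      ∀ᵐ x ∂ν, ∀ (A W : ℕ) (ε : ℝ), 0 < ε → ∀ᶠ k : ℕ in atTop, ∀ m : ℕ, 0 < m → Even m →
        |(m : ℝ) - lam k * x| ≤ Real.log (lam k) ^ W → Holds ε A m) := by
  have key : ∀ (A W U T : ℕ) (C δ ε : ℝ), 0 < δ → 0 < ε → ∃ N₀ : ℕ, ∀ N : ℝ, (N₀ : ℝ) ≤ N → ∀ ν : Measure ℝ,
      PowerDecay ν T C δ →
      ν.real {x | ∃ m : ℕ, 0 < m ∧ Even m ∧ |(m : ℝ) - N * x| ≤ Real.log N ^ W ∧ ¬ Holds ε A m} ≤ 1 / Real.log N ^ U := by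
    intro A W U T C δ ε hδ hε
    obtain ⟨N₀, h⟩ := Pool.Agent.HP25.FD.gold_decay A W U 3 T C δ ε hδ hε (Holds ε A)
      (fun m hm h2 hw => holds_of ε A hε m hm h2 hw)
    refine ⟨N₀, fun N hN ν hν => ?_⟩
    have := hν.prob
    exact h N hN ν hν.supp hν.decay
  refine ⟨key, fun T C δ hδ ν hν lam c hc hlam => ?_⟩
  have := hν.prob
  have h1 : ∀ A W j : ℕ, ∀ᵐ x ∂ν, ∀ᶠ k : ℕ in atTop,
      x ∉ {x | ∃ m : ℕ, 0 < m ∧ Even m ∧ |(m : ℝ) - lam k * x| ≤ Real.log (lam k) ^ W ∧ ¬ Holds (1 / ((j : ℝ) + 1)) A m} := by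
    intro A W j
    apply Pool.Agent.HP25.FD.ae_scales ν lam c hc hlam
      (fun N => {x | ∃ m : ℕ, 0 < m ∧ Even m ∧ |(m : ℝ) - N * x| ≤ Real.log N ^ W ∧ ¬ Holds (1 / ((j : ℝ) + 1)) A m})
    intro U
    obtain ⟨N₀, h⟩ := key A W U T C δ (1 / ((j : ℝ) + 1)) hδ (by positivity)
    exact ⟨N₀, fun N hN => h N hN ν hν⟩
  have h2 : ∀ᵐ x ∂ν, ∀ A W j : ℕ, ∀ᶠ k : ℕ in atTop,
      x ∉ {x | ∃ m : ℕ, 0 < m ∧ Even m ∧ |(m : ℝ) - lam k * x| ≤ Real.log (lam k) ^ W ∧ ¬ Holds (1 / ((j : ℝ) + 1)) A m} := by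
    rw [ae_all_iff]
    intro A
    rw [ae_all_iff]
    intro W
    rw [ae_all_iff]
    exact h1 A W
  filter_upwards [h2] with x hx A W ε hε
  obtain ⟨j, hj⟩ := exists_nat_one_div_lt hε
  filter_upwards [hx A W j] with k hk m hm1 hm2 hm3
  by_contra hcon
  exact hk ⟨m, hm1, hm2, hm3, fun h => hcon (holds_mono _ _ A m hj.le h)⟩

end Pool.Agent.Results.MP_629a14_nt.FourierDimensionZero
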