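import Pool.Agent.HP25.NI.E
import Pool.Agent.TH894.SM0

/-!
# The order of magnitude (and the asymptotic formula) for binary Goldbach representation numbers, for ALL even integers
near almost all values of smoothly varying functions of non-integral order at integers with restricted digits

Examples of the functions `f`: `t ^ c` with a real `c > 0` which is not an integer, `t ^ c * log t`, all finite sums of
real powers of `t` whose largest exponent is positive and not an integer, with a positive coefficient.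

The new ingredient (`Pool.Agent.HP25.NI`): the characteristic function `E e (θ f (n))` of the value of `f` at an integer
with independent random digits decays like a power of `|θ| f (b ^ k)`, up to `|θ| = 1`. For every choice of the high digits
`f` is replaced by its Taylor polynomial of a degree larger than the order of `f` in the low digits, and the inequality of
Weyl type for real polynomials at integers with random digits (`Pool.Agent.HP25.PD`) is applied to it. It follows that the
integers near the values have a minimal additive energy up to a constant. From the starting files: elementary facts on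
the growth of smoothly varying functions (`Pool.Agent.N193.PS.Sv`) and the transfer from additive energy to Goldbach
representations (`Pool.Agent.R459.near_even`).
-/

set_option autoImplicit false

namespace Pool.Agent.Results.MP_629a14_nt.NonIntegralOrderDigits

open Finset Filter Topology

/-- `f` is smoothly varying of order `c`: it is infinitely differentiable and positive for large arguments, and
`t ^ m f⁽ᵐ⁾(t) / f(t) → c (c - 1) ... (c - m + 1)` for every `m`. -/
def SmoothlyVarying (c : ℝ) (f : ℝ → ℝ) : Prop :=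
  (∃ t₀ : ℝ, ∀ t > t₀, ContDiffAt ℝ ((⊤ : ℕ∞) : WithTop ℕ∞) f t ∧ 0 < f t) ∧
  ∀ m : ℕ, Tendsto (fun t => t ^ m * iteratedDeriv m f t / f t) atTop (𝓝 (∏ i ∈ range m, (c - i)))

lemma sv_of (c : ℝ) (hc : 0 < c) (hn : ∀ m : ℕ, c ≠ m) (f : ℝ → ℝ) (h : SmoothlyVarying c f) :
    Pool.Agent.N193.PS.SV c (fun m => iteratedDeriv m f) := by
  obtain ⟨⟨t₀, h0⟩, hlim⟩ := h
  refine ⟨hc, hn, ⟨t₀ + 1, fun m t ht => ?_⟩, ?_, fun m => ?_⟩
  · have h1 := (h0 t (by linarith)).1
    have h2 : DifferentiableAt ℝ (iteratedDeriv m f) t := by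
      rw [iteratedDeriv_eq_equiv_comp, LinearIsometryEquiv.comp_differentiableAt_iff]
      exact h1.differentiableAt_iteratedFDeriv (by exact_mod_cast WithTop.coe_lt_top m)
    show HasDerivAt (iteratedDeriv m f) (iteratedDeriv (m + 1) f t) t
    rw [iteratedDeriv_succ]
    exact h2.hasDerivAt
  · filter_upwards [eventually_gt_atTop t₀] with t ht
    simp only [iteratedDeriv_zero]
    exact (h0 t ht).2
  · simpa only [iteratedDeriv_zero] using hlim m

/-- The integers below `b ^ k` whose `i`-th digit in base `b` lies in `D i`, for all `i < k`. -/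
def S (b : ℕ) (D : ℕ → Finset ℕ) (k : ℕ) : Finset ℕ :=
  (range (b ^ k)).filter (fun n : ℕ => ∀ i < k, n / b ^ i % b ∈ D i)

/-- The twin prime constant `∏_{p > 2} (1 - 1 / (p - 1) ^ 2)`, as the infimum of the decreasing partial products. -/
noncomputable def C₂ : ℝ := ⨅ z : ℕ, ∏ p ∈ (Icc 3 z).filter Nat.Prime, (1 - 1 / ((p : ℝ) - 1) ^ 2)

/-- The singular series `2 C₂ ∏_{p ∣ m, p > 2} (p - 1) / (p - 2)` of an even number `m`. -/
noncomputable def sing (m : ℕ) : ℝ :=
  2 * C₂ * ∏ p ∈ m.primeFactors.filter (fun p => 2 < p), ((p : ℝ) - 1) / ((p : ℝ) - 2)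

/-- The number of primes `p`, `y₁ < p ≤ y₂`, for which `m - p` is a prime (used for `y₂ ≤ m`; for `y₁ = 0` and
`y₂ = m` this is the number of ordered representations of `m` as a sum of two primes). -/
def R (m y₁ y₂ : ℕ) : ℕ := ((Ioc y₁ y₂).filter (fun p => p.Prime ∧ (m - p).Prime)).card

/-- For all `y₁ < y₂ ≤ m` with `y₂ - y₁ ≥ m / log ^ A m`, the number `R m y₁ y₂` agrees with the prediction
`sing m * (y₂ - y₁) / log ^ 2 m` up to a relative error of at most `ε`, and lies between `(1 - ε) C₂` and `1 + ε`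
times `(y₂ - y₁) m / (φ(m) log ^ 2 m)`. -/
def Holds (ε : ℝ) (A m : ℕ) : Prop :=
  ∀ y₁ y₂ : ℕ, y₁ < y₂ → y₂ ≤ m → (m : ℝ) / Real.log m ^ A ≤ (y₂ : ℝ) - y₁ →
    |(R m y₁ y₂ : ℝ) - sing m * ((y₂ : ℝ) - y₁) / Real.log m ^ 2| ≤ ε * (sing m * ((y₂ : ℝ) - y₁) / Real.log m ^ 2) ∧
    (1 - ε) * C₂ * (((y₂ : ℝ) - y₁) * m / (m.totient * Real.log m ^ 2)) ≤ R m y₁ y₂ ∧
    (R m y₁ y₂ : ℝ) ≤ (1 + ε) * (((y₂ : ℝ) - y₁) * m / (m.totient * Real.log m ^ 2))

open Classical in
/-- The number of the `n` in `S b D k` for which `Holds` fails for some even integer `m > 0` at a distance of at most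
`k ^ W` from `f n`. -/
noncomputable def exceptions (b : ℕ) (D : ℕ → Finset ℕ) (k : ℕ) (f : ℝ → ℝ) (ε : ℝ) (A W : ℕ) : ℕ :=
  ((S b D k).filter (fun n : ℕ => ∃ m : ℕ, 0 < m ∧ Even m ∧ |(m : ℝ) - f (n : ℝ)| ≤ (k : ℝ) ^ W ∧
    ¬ Holds ε A m)).card

lemma C₂_nonneg : 0 ≤ C₂ := by
  unfold C₂
  apply Real.iInf_nonneg
  intro z
  apply prod_nonneg
  intro p hp
  rw [mem_filter, mem_Icc] at hp
  exact (Pool.Agent.TH894.SM.fac_pos p hp.1.1).le

lemma holds_of (ε : ℝ) (A : ℕ) (hε : 0 < ε) (m : ℕ) (hm : 3 ≤ m) (h2 : 2 ∣ m)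
    (h : Pool.Agent.W93.PG.WinP ε A m) : Holds ε A m := by
  intro y₁ y₂ h12 hy hlen
  have h1 := h y₁ y₂ h12 hy hlen
  have e0 : Pool.Agent.W93.PG.cnt m y₁ y₂ = R m y₁ y₂ := rfl
  have e1 : Pool.Agent.H560R3.GB.sing m = sing m := rfl
  rw [e0, e1] at h1
  refine ⟨h1, ?_⟩
  have hn0 : m ≠ 0 := by omega
  have hnr : (0 : ℝ) < m := by exact_mod_cast Nat.pos_of_ne_zero hn0
  have hl : 0 < Real.log m := Real.log_pos (by exact_mod_cast (by omega : 1 < m))
  have ht : (0 : ℝ) < m.totient := by exact_mod_cast Nat.totient_pos.2 (Nat.pos_of_ne_zero hn0)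
  obtain ⟨s1, s2⟩ := Pool.Agent.TH894.SM.sing_tot m hn0 h2
  have e2 : Pool.Agent.H560R3.GB.C₂ = C₂ := rfl
  rw [e1] at s1 s2
  rw [e2] at s1
  have hC := C₂_nonneg
  have hy' : (y₁ : ℝ) < y₂ := by exact_mod_cast h12
  obtain ⟨Q, hQ⟩ : ∃ Q : ℝ, Q = ((y₂ : ℝ) - y₁) / Real.log m ^ 2 := ⟨_, rfl⟩
  have hQ0 : 0 < Q := by
    rw [hQ]
    apply div_pos (by linarith) (by positivity)
  have e : ((y₂ : ℝ) - y₁) * m / (m.totient * Real.log m ^ 2) = m / m.totient * Q := by
    rw [hQ]
    field_simp
  have hHL : sing m * ((y₂ : ℝ) - y₁) / Real.log m ^ 2 = sing m * Q := by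
    rw [hQ]
    ring
  rw [hHL, abs_le] at h1
  rw [e]
  constructor
  · rcases le_or_gt ε 1 with hε1 | hε1
    · have h3 : (1 - ε) * (C₂ * (m / m.totient) * Q) ≤ (1 - ε) * (sing m * Q) := by
        apply mul_le_mul_of_nonneg_left _ (by linarith)
        exact mul_le_mul_of_nonneg_right s1 hQ0.le
      have e2 : (1 - ε) * C₂ * (m / m.totient * Q) = (1 - ε) * (C₂ * (m / m.totient) * Q) := by ring
      rw [e2]
      linarith [h1.1]
    · have h3 : (1 - ε) * C₂ * (m / m.totient * Q) ≤ 0 := by
        apply mul_nonpos_of_nonpos_of_nonneg _ (by positivity)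
        exact mul_nonpos_of_nonpos_of_nonneg (by linarith) hC
      exact h3.trans (Nat.cast_nonneg _)
  · have h3 : (1 + ε) * (sing m * Q) ≤ (1 + ε) * (m / m.totient * Q) := by
      apply mul_le_mul_of_nonneg_left _ (by linarith)
      exact mul_le_mul_of_nonneg_right s2 hQ0.le
    linarith [h1.2]

/-- Let `b ≥ 2`, `A`, `W`, `U` and `ε > 0` be fixed, let `f` be a smoothly varying function of the order `c > 0`, where
`c` is not an integer, and let `k` be large. Let `D 0, ..., D (k - 1)` be arbitrary sets of at least two digits in base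
`b`, and let `S` be the set of the integers below `b ^ k` whose `i`-th digit lies in `D i` for all `i < k` (it has at least
`2 ^ k` elements).

Then for all `n ∈ S`, with at most `#S / k ^ U` exceptions, ALL the even integers `m > 0` at a distance of at most `k ^ W`
from `f (n)` have the following property: for all `y₁ < y₂ ≤ m` with `y₂ - y₁ ≥ m / log ^ A m`, the number of the
representations `m = p + q` with primes `p`, `q` and `y₁ < p ≤ y₂` agrees with the prediction of Hardy and Littlewood up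
to a relative error of at most `ε`, and lies between `(1 - ε) C₂` and `1 + ε` times `(y₂ - y₁) m / (φ(m) log ^ 2 m)`
(for `y₁ = 0`, `y₂ = m` this is the order of magnitude in the problem). -/
theorem result (b A W U : ℕ) (hb : 2 ≤ b) (c : ℝ) (hc : 0 < c) (hn : ∀ m : ℕ, c ≠ m) (f : ℝ → ℝ) (hf : SmoothlyVarying c f)
    (ε : ℝ) (hε : 0 < ε) :
    ∃ k₀ : ℕ, ∀ k : ℕ, k₀ ≤ k → ∀ D : ℕ → Finset ℕ, (∀ i < k, D i ⊆ range b ∧ 2 ≤ (D i).card) →
      (exceptions b D k f ε A W : ℝ) ≤ (S b D k).card / (k : ℝ) ^ U := by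
  classical
  obtain ⟨k₀, h⟩ := Pool.Agent.HP25.NI.gold_sv b hb (sv_of c hc hn f hf) A W U 3 ε hε (Holds ε A)
    (fun m hm h2 hw => holds_of ε A hε m hm h2 hw)
  refine ⟨k₀, fun k hk D hD => ?_⟩
  unfold exceptions
  refine h k hk D hD _ (fun n hn => ?_)
  simp only [iteratedDeriv_zero]
  exact hn

end Pool.Agent.Results.MP_629a14_nt.NonIntegralOrderDigits
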