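import Pool.Agent.HP27.RG.F
import Pool.Agent.HP27.EN.F
import Pool.Agent.R482.Sing

/-!
# Binary and simultaneous Goldbach representations for all integers near independent random numbers with small collision
probabilities

No structure of the random numbers `X i` is used, only that the sums of some number `q i` of independent copies of `X i`
collide with a probability which is minimal up to a power of the logarithm. For `s` numbers the primes `p` are counted for
which all the differences `m i - p`, `i < s`, are primes (`s = 1`: the binary Goldbach problem), in all long intervals.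

New: the estimate with arbitrary coefficients for one random reflection under this hypothesis and the passage to all the
integers at a distance of at most `log ^ W N` from the random numbers (`Pool.Agent.HP27.EN`, after `Pool.Agent.HP25.OS` of
helper25), and the law of the weighted and unweighted counts for several reflections at once, uniformly in the interval
(`Pool.Agent.HP27.RG`). From the starting files: the majorant and orthogonality estimates (`Pool.Agent.TH872.Sq`), the main
terms and the singular series (`Pool.Agent.H373R2.T7`, `Pool.Agent.W93`).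
-/

set_option autoImplicit false

namespace Pool.Agent.Results.MP_629a14_nt.SimultaneousRepresentations

open Finset Filter

/-- For every prime `p` there is an integer `r` such that `p` divides none of the `r + h i`. -/
def Admissible {k : ℕ} (h : Fin k → ℕ) : Prop := ∀ p : ℕ, p.Prime → ∃ r : ℤ, ∀ i, ¬ (p : ℤ) ∣ r + h i

/-- The number `ν_p` of the distinct residues modulo `p` among the `h i`. -/
def nu {k : ℕ} (h : Fin k → ℕ) (p : ℕ) : ℕ := (univ.image fun i => h i % p).card

/-- The product of the factors of the singular series of the `h i` over the primes `p ≤ z`. -/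
noncomputable def sing {k : ℕ} (h : Fin k → ℕ) (z : ℕ) : ℝ :=
  ∏ p ∈ (Icc 1 z).filter Nat.Prime, ((1 - 1 / (p : ℝ)) ^ k)⁻¹ * (1 - (nu h p : ℝ) / p)

/-- The number of the primes `p` with `y₁ < p ≤ y₂` for which all the numbers `m i - p` are primes (used if `y₂ < m i` for
all `i`). -/
def R {s : ℕ} (m : Fin s → ℕ) (y₁ y₂ : ℕ) : ℕ := ((Ioc y₁ y₂).filter (fun p => p.Prime ∧ ∀ i, (m i - p).Prime)).card

/-- The singular series `S` of `0, m 1, ..., m s` converges, it is positive if `0, m 1, ..., m s` is admissible, and for all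
`y₁ < y₂` with `y₂ < m i` for all `i`: `|∑_{y₁ < n ≤ y₂} Λ(n) Λ(m 1 - n) ... Λ(m s - n) - S (y₂ - y₁)| ≤ N / log ^ U N`, and if
`0, m 1, ..., m s` is admissible and `y₂ - y₁ ≥ N / log ^ A N`, then `R m y₁ y₂` agrees with `S (y₂ - y₁) / log ^ (s + 1) N` up
to a relative error of at most `ε`. -/
def Holds (ε : ℝ) (A U N : ℕ) {s : ℕ} (m : Fin s → ℕ) : Prop :=
  ∃ S : ℝ, Tendsto (sing (Fin.cons 0 m : Fin (s + 1) → ℕ)) atTop (nhds S) ∧
    (Admissible (Fin.cons 0 m : Fin (s + 1) → ℕ) → 0 < S) ∧ ∀ y₁ y₂ : ℕ, y₁ < y₂ → (∀ i, y₂ < m i) →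
      |∑ n ∈ Ioc y₁ y₂, ArithmeticFunction.vonMangoldt n * ∏ i, ArithmeticFunction.vonMangoldt (m i - n) - S * ((y₂ : ℝ) - y₁)| ≤
        N / Real.log N ^ U ∧
      (Admissible (Fin.cons 0 m : Fin (s + 1) → ℕ) → (N : ℝ) / Real.log N ^ A ≤ (y₂ : ℝ) - y₁ →
        |(R m y₁ y₂ : ℝ) - S * ((y₂ : ℝ) - y₁) / Real.log N ^ (s + 1)| ≤ ε * (S * ((y₂ : ℝ) - y₁) / Real.log N ^ (s + 1)))

/-- The twin prime constant `∏_{p > 2} (1 - 1 / (p - 1) ^ 2)`, as the infimum of the decreasing partial products. -/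
noncomputable def C₂ : ℝ := ⨅ z : ℕ, ∏ p ∈ (Icc 3 z).filter Nat.Prime, (1 - 1 / ((p : ℝ) - 1) ^ 2)

open Classical in
/-- The probability that `|X₁ + ... + X_q - X'₁ - ... - X'_q| ≤ 1`, if the `X_j` and `X'_j` are independent random numbers
which take the value `a x` with the probability `p x`. -/
noncomputable def collision {ι : Type} [Fintype ι] (q : ℕ) (p a : ι → ℝ) : ℝ :=
  ∑ x : Fin q → ι, ∑ y : Fin q → ι, if |∑ j, a (x j) - ∑ j, a (y j)| ≤ 1 then (∏ j, p (x j)) * ∏ j, p (y j) else 0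

open Classical in
/-- The probability of the event `E` if the `x i` are independent and `x i` takes each value `y` with the probability
`p i y`. -/
noncomputable def Prob {r : ℕ} {ι : Fin r → Type} [∀ i, Fintype (ι i)] (p : ∀ i, ι i → ℝ) (E : (∀ i, ι i) → Prop) : ℝ :=
  ∑ x : (∀ i, ι i), if E x then ∏ i, p i (x i) else 0

lemma coll_eq {ι : Type} [Fintype ι] (q : ℕ) (p a : ι → ℝ) : Pool.Agent.HP27.EN.coll q p a = collision q p a := rfl

lemma sing_eq {k : ℕ} (a : Fin k → ℕ) :
    (fun z => Pool.Agent.H373R2.T7.singZ (fun i => (a i : ℤ)) z) = sing (Fin.cons 0 a : Fin (k + 1) → ℕ) := by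
  funext z
  have h1 := Pool.Agent.R482.Sg.singZ_sg (Fin.cons 0 a : Fin (k + 1) → ℕ) z
  simp only [Fin.cons_zero, Fin.cons_succ, Nat.cast_zero, sub_zero] at h1
  rw [h1]
  rfl

lemma adm_eq {k : ℕ} (a : Fin k → ℕ) :
    Pool.Agent.H373R2.T7.Admissible (fun i => (a i : ℤ)) ↔ Admissible (Fin.cons 0 a : Fin (k + 1) → ℕ) := by
  unfold Pool.Agent.H373R2.T7.Admissible Admissible
  apply forall_congr'
  intro p
  apply imp_congr_right
  intro _
  apply exists_congr
  intro r
  rw [Fin.forall_fin_succ]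
  simp only [Fin.cons_zero, Fin.cons_succ, Nat.cast_zero, add_zero]

lemma C₂_nonneg : 0 ≤ C₂ := by
  unfold C₂
  apply Real.iInf_nonneg
  intro z
  apply prod_nonneg
  intro p hp
  rw [mem_filter, mem_Icc] at hp
  exact (Pool.Agent.TH894.SM.fac_pos p hp.1.1).le

lemma adm_even (m : ℕ) (h : Even m) : Admissible (Fin.cons 0 (fun _ => m) : Fin 2 → ℕ) := by
  rw [← adm_eq (fun _ : Fin 1 => m)]
  intro p hp
  rcases hp.two_le.eq_or_lt with h2 | h2
  · refine ⟨1, ?_, fun _ => ?_⟩
    · rw [← h2]; norm_num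
    · obtain ⟨c, hc⟩ := h
      rw [← h2]
      push_cast
      omega
  · have hn : ∀ b : ℕ, 1 ≤ b → b < p → ¬ (p : ℤ) ∣ (b : ℤ) := by
      intro b h1 h3 h4
      have := Nat.le_of_dvd (by omega) (Int.natCast_dvd_natCast.1 h4)
      omega
    by_cases h3 : (p : ℤ) ∣ 1 + (m : ℤ)
    · refine ⟨2, by exact_mod_cast hn 2 (by norm_num) h2, fun _ h4 => ?_⟩
      have h5 := dvd_sub h4 h3
      have e : (2 : ℤ) + m - (1 + m) = ((1 : ℕ) : ℤ) := by push_cast; ring
      rw [e] at h5
      exact hn 1 le_rfl (by omega) h5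
    · exact ⟨1, by exact_mod_cast hn 1 le_rfl (by omega), fun _ => h3⟩

lemma order_of (ε : ℝ) (A U N m : ℕ) (hN : 3 ≤ N) (hm : 0 < m) (hev : Even m) (h : Holds ε A U N (fun _ : Fin 1 => m))
    (y₁ y₂ : ℕ) (h12 : y₁ < y₂) (hy : y₂ < m) (hlen : (N : ℝ) / Real.log N ^ A ≤ (y₂ : ℝ) - y₁) :
    (1 - ε) * C₂ * (((y₂ : ℝ) - y₁) * m / (m.totient * Real.log N ^ 2)) ≤ R (fun _ : Fin 1 => m) y₁ y₂ ∧
    (R (fun _ : Fin 1 => m) y₁ y₂ : ℝ) ≤ (1 + ε) * (((y₂ : ℝ) - y₁) * m / (m.totient * Real.log N ^ 2)) := by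
  obtain ⟨S, h1, h2, h3⟩ := h
  obtain ⟨-, h4⟩ := h3 y₁ y₂ h12 (fun _ => hy)
  have h5 := h4 (adm_even m hev) hlen
  have hS : S = Pool.Agent.H560R3.GB.sing m := by
    have h6 := Pool.Agent.HP27.RG.tendsto_sh m hev.two_dvd hm.ne'
    have h7 : (fun z => Pool.Agent.H373R2.T7.singZ (Pool.Agent.W93.GB.sh m) z) =
        sing (Fin.cons 0 (fun _ => m) : Fin 2 → ℕ) := by
      rw [← sing_eq (fun _ : Fin 1 => m)]
      funext z
      exact Pool.Agent.HP27.RG.singZ_neg (fun _ : Fin 1 => (m : ℤ)) z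
    rw [h7] at h6
    exact tendsto_nhds_unique h1 h6
  obtain ⟨s1, s2⟩ := Pool.Agent.TH894.SM.sing_tot m hm.ne' hev.two_dvd
  have e2 : Pool.Agent.H560R3.GB.C₂ = C₂ := rfl
  rw [← hS] at s1 s2
  rw [e2] at s1
  have hC := C₂_nonneg
  have hl : 0 < Real.log N := Real.log_pos (by exact_mod_cast (by omega : 1 < N))
  have ht : (0 : ℝ) < m.totient := by exact_mod_cast Nat.totient_pos.2 hm
  have hmr : (0 : ℝ) < m := by exact_mod_cast hm
  have hy' : (y₁ : ℝ) < y₂ := by exact_mod_cast h12
  obtain ⟨Q, hQ⟩ : ∃ Q : ℝ, Q = ((y₂ : ℝ) - y₁) / Real.log N ^ 2 := ⟨_, rfl⟩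
  have hQ0 : 0 < Q := by
    rw [hQ]
    apply div_pos (by linarith) (by positivity)
  have e : ((y₂ : ℝ) - y₁) * m / (m.totient * Real.log N ^ 2) = m / m.totient * Q := by
    rw [hQ]
    field_simp
  have hHL : S * ((y₂ : ℝ) - y₁) / Real.log N ^ (1 + 1) = S * Q := by
    rw [hQ]
    ring
  rw [hHL, abs_le] at h5
  rw [e]
  constructor
  · rcases le_or_gt ε 1 with hε1 | hε1
    · have h3 : (1 - ε) * (C₂ * (m / m.totient) * Q) ≤ (1 - ε) * (S * Q) := by
        apply mul_le_mul_of_nonneg_left _ (by linarith)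
        exact mul_le_mul_of_nonneg_right s1 hQ0.le
      have e2 : (1 - ε) * C₂ * (m / m.totient * Q) = (1 - ε) * (C₂ * (m / m.totient) * Q) := by ring
      rw [e2]
      linarith [h5.1]
    · have h3 : (1 - ε) * C₂ * (m / m.totient * Q) ≤ 0 := by
        apply mul_nonpos_of_nonpos_of_nonneg _ (by positivity)
        exact mul_nonpos_of_nonpos_of_nonneg (by linarith) hC
      exact h3.trans (Nat.cast_nonneg _)
  · have h3 : S * Q ≤ m / m.totient * Q := mul_le_mul_of_nonneg_right s2 hQ0.le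
    have h6 : 0 ≤ S * Q := mul_nonneg (by
      refine le_trans ?_ s1
      positivity) hQ0.le
    rcases le_or_gt (-1) ε with hε1 | hε1
    · have h7 : (1 + ε) * (S * Q) ≤ (1 + ε) * (m / m.totient * Q) := mul_le_mul_of_nonneg_left h3 (by linarith)
      linarith [h5.2]
    · exfalso
      have h8 : 0 < S * Q := mul_pos (h2 (adm_even m hev)) hQ0
      nlinarith [h5.1, h5.2]

/-- (1) Let `s ≥ 1`, `T`, `κ`, `U`, `W`, `A`, `ε > 0` and the orders `q i ≥ 1` (`i < s`) be fixed and let `N` be large. Let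
`X i = a i (x i)`, `i < s`, be independent random real numbers with `- log ^ W N ≤ X i ≤ T N`, each with an ARBITRARY
distribution on a finite set, such that for each `i` the sums of `q i` and of further `q i` independent copies of `X i`
differ by at most `1` with a probability of at most `log ^ κ N / N`. Then, with a probability of at least
`1 - 1 / log ^ U N`, ALL the integers `m i ≥ 0` with `|m i - X i| ≤ log ^ W N` have the property `Holds`: for all `y₁ < y₂` with
`y₂ < m i` for all `i`, the weighted number of the `n ∈ (y₁, y₂]` for which `n` and all the `m i - n` are powers of primes is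
`S (y₂ - y₁)` up to `N / log ^ U N`, and, if the `m i` are admissible and `y₂ - y₁ ≥ N / log ^ A N`, the number of the primes
`p ∈ (y₁, y₂]` for which ALL the `m i - p` are primes is `S (y₂ - y₁) / log ^ (s + 1) N` up to a relative error of at most `ε`.

(2) In the case `s = 1` (the binary Goldbach problem) the property `Holds` for an even number `m > 0` gives the order of
magnitude in the problem: for all `y₁ < y₂ < m` with `y₂ - y₁ ≥ N / log ^ A N` (for instance `y₁ = 0` and `y₂ = m - 1`), the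
number of the representations `m = p + p'` with primes `p`, `p'` and `y₁ < p ≤ y₂` lies between `(1 - ε) C₂` and `1 + ε` times
`(y₂ - y₁) m / (φ(m) log ^ 2 N)`. -/
theorem result :
    (∀ s : ℕ, 1 ≤ s → ∀ q : Fin s → ℕ, (∀ i, 1 ≤ q i) → ∀ (T κ U W A : ℕ) (ε : ℝ), 0 < ε →
      ∃ N₀ : ℕ, ∀ N, N₀ ≤ N → ∀ (ι : Fin s → Type) [∀ i, Fintype (ι i)] (p a : ∀ i, ι i → ℝ),
        (∀ i, (∀ x, 0 ≤ p i x) ∧ ∑ x, p i x = 1 ∧ (∀ x, -Real.log N ^ W ≤ a i x ∧ a i x ≤ T * N) ∧
          collision (q i) (p i) (a i) ≤ Real.log N ^ κ / N) →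
        1 - 1 / Real.log N ^ U ≤ Prob p fun x =>
          ∀ m : Fin s → ℕ, (∀ i, |(m i : ℝ) - a i (x i)| ≤ Real.log N ^ W) → Holds ε A U N m) ∧
    (∀ (ε : ℝ) (A U N m : ℕ), 3 ≤ N → 0 < m → Even m → Holds ε A U N (fun _ : Fin 1 => m) →
      ∀ y₁ y₂ : ℕ, y₁ < y₂ → y₂ < m → (N : ℝ) / Real.log N ^ A ≤ (y₂ : ℝ) - y₁ →
        (1 - ε) * C₂ * (((y₂ : ℝ) - y₁) * m / (m.totient * Real.log N ^ 2)) ≤ R (fun _ : Fin 1 => m) y₁ y₂ ∧
        (R (fun _ : Fin 1 => m) y₁ y₂ : ℝ) ≤ (1 + ε) * (((y₂ : ℝ) - y₁) * m / (m.totient * Real.log N ^ 2))) := by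
  classical
  refine ⟨?_, order_of⟩
  intro s hs q hq T κ U W A ε hε
  obtain ⟨V, hV⟩ : ∃ V, V = U + A + 2 := ⟨_, rfl⟩
  obtain ⟨F, W', U', hUU, N1, h1⟩ := Pool.Agent.HP27.EN.near_fam s q hq 1 (κ + 1) W V
  obtain ⟨N2, h2⟩ := Pool.Agent.HP27.RG.law s hs q hq F W' U'
  obtain ⟨c, hc, hlow⟩ := Pool.Agent.H373R2.T7.singZ_low s
  obtain ⟨ε', hε'⟩ : ∃ ε' : ℝ, ε' = min ε 1 := ⟨_, rfl⟩
  have hε0 : 0 < ε' := by rw [hε']; exact lt_min hε one_pos
  have hε1 : ε' ≤ 1 := by rw [hε']; exact min_le_right _ _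
  have hεε : ε' ≤ ε := by rw [hε']; exact min_le_left _ _
  obtain ⟨N3, h3⟩ := Pool.Agent.HP27.RG.count s A (T + 1) (by omega) c ε' hc hε0 hε1
  obtain ⟨N4, hN4⟩ : ∃ N4 : ℕ, ∀ N : ℕ, N4 ≤ N → 1 ≤ Real.log N ∧ 2 * ((T : ℝ) + 2) ≤ Real.log N ∧ Real.log N ^ W ≤ N := by
    have g1 := (tendsto_natCast_atTop_atTop (R := ℝ)).eventually
      ((isLittleO_log_rpow_atTop (r := 1 / ((W : ℝ) + 1)) (by positivity)).def (c := 1) one_pos)
    have g2 := (tendsto_natCast_atTop_atTop (R := ℝ)).eventually_ge_atTop (Real.exp (2 * ((T : ℝ) + 2)))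
    obtain ⟨n0, g3⟩ := eventually_atTop.1 (g1.and g2)
    refine ⟨n0 + 1, fun N hN => ?_⟩
    obtain ⟨g4, g5⟩ := g3 N (by omega)
    have hN1 : (1 : ℝ) ≤ N := by exact_mod_cast (by omega : 1 ≤ N)
    have hN0 : (0 : ℝ) < N := by linarith
    have hl : 2 * ((T : ℝ) + 2) ≤ Real.log N := by
      rw [Real.le_log_iff_exp_le hN0]
      exact g5
    have hT0 : (0 : ℝ) ≤ T := Nat.cast_nonneg T
    have hl1 : 1 ≤ Real.log N := by linarith
    refine ⟨hl1, hl, ?_⟩
    rw [Real.norm_of_nonneg (by linarith), Real.norm_of_nonneg (by positivity), one_mul] at g4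
    calc Real.log N ^ W ≤ ((N : ℝ) ^ (1 / ((W : ℝ) + 1))) ^ W := pow_le_pow_left₀ (by linarith) g4 W
      _ = (N : ℝ) ^ (1 / ((W : ℝ) + 1) * W) := by rw [Real.rpow_mul hN0.le, Real.rpow_natCast]
      _ ≤ (N : ℝ) ^ (1 : ℝ) := by
          apply Real.rpow_le_rpow_of_exponent_le hN1
          rw [one_div, inv_mul_le_iff₀ (by positivity)]
          linarith
      _ = N := Real.rpow_one _
  refine ⟨N1 + N2 + N3 + N4 + 3, fun N hN ι _ p a hX => ?_⟩
  obtain ⟨hl1, hlT, hlW⟩ := hN4 N (by omega)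
  have hNr : (0 : ℝ) < N := by exact_mod_cast (by omega : 0 < N)
  have hT0 : (0 : ℝ) ≤ T := Nat.cast_nonneg T
  obtain ⟨N', hN'⟩ : ∃ N' : ℕ, N' = (T + 2) * N := ⟨_, rfl⟩
  have hNN : N ≤ N' := by rw [hN']; nlinarith
  have hN'r : (N' : ℝ) = (T + 2) * N := by rw [hN']; push_cast; ring
  have hNNr : (N : ℝ) ≤ N' := by exact_mod_cast hNN
  have hll : Real.log N ≤ Real.log N' := Real.log_le_log hNr hNNr
  have hl1' : 1 ≤ Real.log N' := hl1.trans hll
  -- the error terms
  have herr : ∀ V' : ℕ, V ≤ V' → 2 * ((N' : ℝ) / Real.log N' ^ V') ≤ N / Real.log N ^ (U + A + 1) := by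
    intro V' hV'
    have g1 : (N' : ℝ) / Real.log N' ^ V' ≤ N' / Real.log N ^ V := by
      apply div_le_div_of_nonneg_left (by positivity) (by positivity)
      calc Real.log N ^ V ≤ Real.log N ^ V' := pow_le_pow_right₀ hl1 hV'
        _ ≤ Real.log N' ^ V' := pow_le_pow_left₀ (by linarith) hll _
    have g2 : 2 * ((N' : ℝ) / Real.log N ^ V) ≤ N / Real.log N ^ (U + A + 1) := by
      rw [mul_div_assoc', div_le_div_iff₀ (by positivity) (by positivity), hV, hN'r,
        show U + A + 2 = (U + A + 1) + 1 by ring, pow_succ (Real.log N) (U + A + 1)]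
      have g3 : 0 ≤ (N : ℝ) * Real.log N ^ (U + A + 1) := by positivity
      nlinarith
    linarith
  have hmono : ∀ V₁ V₂ : ℕ, V₁ ≤ V₂ → (N : ℝ) / Real.log N ^ V₂ ≤ N / Real.log N ^ V₁ := fun V₁ V₂ hV =>
    div_le_div_of_nonneg_left hNr.le (by positivity) (pow_le_pow_right₀ hl1 hV)
  have hp0 : ∀ x : (∀ i, ι i), 0 ≤ ∏ i, p i (x i) := fun x => prod_nonneg fun i _ => (hX i).1 _
  have hp1 : ∑ x : (∀ i, ι i), ∏ i, p i (x i) = 1 := by
    have g1 := prod_univ_sum (fun i => (univ : Finset (ι i))) (fun i x => p i x)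
    rw [Fintype.piFinset_univ] at g1
    rw [← g1]
    exact prod_eq_one fun i _ => (hX i).2.1
  have h4 := h1 N' (by omega) (fun m => ¬ Pool.Agent.HP27.RG.WL U' N' (fun _ : Fin s => (-1 : ℤ)) m) (fun Ω p' hlaw => by
      convert h2 N' (by omega) Ω p' hlaw (fun _ => -1) (fun _ => Or.inr rfl)) ι p a (fun i => (hX i).1) (fun i => (hX i).2.1)
      (fun i x => by
        obtain ⟨g1, g2⟩ := (hX i).2.2.1 x
        constructor
        · refine le_trans (neg_le_neg ?_) g1
          exact pow_le_pow_left₀ (by linarith) hll _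
        · push_cast
          rw [hN'r]
          nlinarith)
      (fun i => by
        have g1 := (hX i).2.2.2
        rw [le_div_iff₀ hNr, mul_comm] at g1
        have g2 : (N' : ℝ) * Pool.Agent.HP27.EN.coll (q i) (p i) (a i) = ((T : ℝ) + 2) * (N * collision (q i) (p i) (a i)) := by
          rw [coll_eq, hN'r]
          ring
        rw [g2]
        calc ((T : ℝ) + 2) * (N * collision (q i) (p i) (a i)) ≤ Real.log N * Real.log N ^ κ := by
              apply mul_le_mul (by linarith) g1 _ (by linarith)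
              apply mul_nonneg hNr.le
              unfold collision
              apply sum_nonneg
              intro x _
              apply sum_nonneg
              intro y _
              split_ifs
              · exact mul_nonneg (prod_nonneg fun j _ => (hX i).1 _) (prod_nonneg fun j _ => (hX i).1 _)
              · exact le_rfl
          _ = Real.log N ^ (κ + 1) := by ring
          _ ≤ _ := pow_le_pow_left₀ (by linarith) hll _)
  obtain ⟨E, hE⟩ : ∃ E : (∀ i, ι i) → Prop, E = fun x =>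
        ∀ m : Fin s → ℕ, (∀ i, |(m i : ℝ) - a i (x i)| ≤ Real.log N ^ W) → Holds ε A U N m := ⟨_, rfl⟩
  rw [← hE]
  have h5 : ∀ x : (∀ i, ι i), (∏ i, p i (x i)) ≤ (if E x then ∏ i, p i (x i) else 0) +
      (if ∃ h : Fin s → ℕ, (∀ i, |(h i : ℝ) - a i (x i)| ≤ Real.log N' ^ W) ∧
        ¬ Pool.Agent.HP27.RG.WL U' N' (fun _ : Fin s => (-1 : ℤ)) h then ∏ i, p i (x i) else 0) := by
    intro x
    by_cases hx : E x
    · rw [if_pos hx]
      have : 0 ≤ (if ∃ h : Fin s → ℕ, (∀ i, |(h i : ℝ) - a i (x i)| ≤ Real.log N' ^ W) ∧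
        ¬ Pool.Agent.HP27.RG.WL U' N' (fun _ : Fin s => (-1 : ℤ)) h then ∏ i, p i (x i) else 0) := by
        split_ifs
        · exact hp0 x
        · exact le_rfl
      linarith
    · rw [if_neg hx, zero_add, if_pos]
      rw [hE] at hx
      push Not at hx
      obtain ⟨m, hm, h6⟩ := hx
      refine ⟨m, fun i => (hm i).trans (pow_le_pow_left₀ (by linarith) hll _), fun h7 => h6 ?_⟩
      obtain ⟨S, q1, q2⟩ := h7
      have hmN : ∀ i, m i ≤ (T + 1) * N := by
        intro i
        have g2 := (abs_le.1 (hm i)).2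
        have g3 := ((hX i).2.2.1 (x i)).2
        have g4 : (m i : ℝ) ≤ (((T + 1) * N : ℕ) : ℝ) := by
          push_cast
          nlinarith
        exact_mod_cast g4
      have es : (fun z => Pool.Agent.H373R2.T7.singZ (fun i : Fin s => (-1 : ℤ) * (m i : ℤ)) z) =
          sing (Fin.cons 0 m : Fin (s + 1) → ℕ) := by
        rw [← sing_eq]
        funext z
        have := Pool.Agent.HP27.RG.singZ_neg (fun i : Fin s => (m i : ℤ)) z
        simp only [neg_one_mul]
        exact this
      have hSc : Admissible (Fin.cons 0 m : Fin (s + 1) → ℕ) → c ≤ S := by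
        intro had
        have had' := Pool.Agent.HP27.RG.adm_neg _ ((adm_eq m).2 had)
        refine ge_of_tendsto q1 (Eventually.of_forall fun z => ?_)
        have := hlow _ had' z
        simp only [neg_one_mul]
        exact this
      refine ⟨S, by rw [← es]; exact q1, fun had => hc.trans_le (hSc had), fun y₁ y₂ h12 hy => ?_⟩
      have hi0 : Fin s := ⟨0, hs⟩
      have hy2 : y₂ ≤ (T + 1) * N := (hy hi0).le.trans (hmN hi0)
      have hy2' : y₂ ≤ N' := by rw [hN']; nlinarith
      have w2 := q2 y₂ hy2' (fun i _ => hy i)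
      have w1 := q2 y₁ (by omega) (fun i _ => h12.trans (hy i))
      obtain ⟨f, hf⟩ : ∃ f : Fin s → ℕ → ℤ, ∀ i n, f i n = (m i : ℤ) + (-1) * (n : ℤ) := ⟨_, fun _ _ => rfl⟩
      have esum : ∑ n ∈ Ioc y₁ y₂, ArithmeticFunction.vonMangoldt n * ∏ i, Pool.Agent.H373R2.T7.lamI (f i n) =
          Pool.Agent.HP27.RG.FL (fun _ : Fin s => (-1 : ℤ)) m y₂ - Pool.Agent.HP27.RG.FL (fun _ : Fin s => (-1 : ℤ)) m y₁ := by
        unfold Pool.Agent.HP27.RG.FL
        simp only [hf]
        rw [eq_sub_iff_add_eq, ← sum_union]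
        · apply sum_congr _ (fun _ _ => rfl)
          ext n
          simp only [mem_union, mem_Ioc, mem_Icc]
          omega
        · rw [disjoint_left]
          intro n h8 h9
          rw [mem_Ioc] at h8
          rw [mem_Icc] at h9
          omega
      have ew : |∑ n ∈ Ioc y₁ y₂, ArithmeticFunction.vonMangoldt n * ∏ i, Pool.Agent.H373R2.T7.lamI (f i n) -
          S * ((y₂ : ℝ) - y₁)| ≤ N / Real.log N ^ (U + A + 1) := by
        rw [esum]
        have g1 := herr U' hUU
        have g2 := abs_le.1 w1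
        have g3 := abs_le.1 w2
        rw [abs_le]
        constructor <;> linarith [g2.1, g2.2, g3.1, g3.2]
      have ev : ∑ n ∈ Ioc y₁ y₂, ArithmeticFunction.vonMangoldt n * ∏ i, ArithmeticFunction.vonMangoldt (m i - n) =
          ∑ n ∈ Ioc y₁ y₂, ArithmeticFunction.vonMangoldt n * ∏ i, Pool.Agent.H373R2.T7.lamI (f i n) := by
        apply sum_congr rfl
        intro n hn
        rw [mem_Ioc] at hn
        congr 1
        apply prod_congr rfl
        intro i _
        have := hy i
        unfold Pool.Agent.H373R2.T7.lamI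
        rw [if_pos (by rw [hf]; omega)]
        congr 1
        rw [hf]
        omega
      refine ⟨?_, fun had hlen => ?_⟩
      · rw [ev]
        exact ew.trans (hmono U (U + A + 1) (by omega))
      · have g1 := h3 N (by omega) f (fun i n n' h => by
          rw [hf, hf] at h
          omega) (fun i n _ => by
          rw [hf]
          have g2 := hmN i
          have g3 : (m i : ℤ) ≤ (((T + 1) * N : ℕ) : ℤ) := by exact_mod_cast g2
          have g4 : (0 : ℤ) ≤ (n : ℤ) := Int.natCast_nonneg n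
          linarith) S (hSc had) y₁ y₂ h12 hy2 hlen (ew.trans (hmono (A + 1) (U + A + 1) (by omega)))
        have e1 : (Pool.Agent.HP27.RG.RS (Ioc y₁ y₂) f) = (Ioc y₁ y₂).filter (fun p => p.Prime ∧ ∀ i, (m i - p).Prime) := by
          unfold Pool.Agent.HP27.RG.RS
          apply filter_congr
          intro n hn
          rw [mem_Ioc] at hn
          have e2 : ∀ i, (f i n).toNat = m i - n := by
            intro i
            rw [hf]
            omega
          simp only [e2]
        have e3 : ((Pool.Agent.HP27.RG.RS (Ioc y₁ y₂) f).card : ℝ) = R m y₁ y₂ := by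
          rw [e1]
          rfl
        rw [e3] at g1
        refine g1.trans (mul_le_mul_of_nonneg_right hεε ?_)
        have g2 := hSc had
        have g3 : (y₁ : ℝ) < y₂ := by exact_mod_cast h12
        exact div_nonneg (mul_nonneg (by linarith) (by linarith)) (by positivity)
  have h6 := sum_le_sum (s := (univ : Finset (∀ i, ι i))) fun x _ => h5 x
  rw [hp1, sum_add_distrib] at h6
  have h7 : Prob p E = ∑ x : (∀ i, ι i), if E x then ∏ i, p i (x i) else 0 := by
    unfold Prob
    apply sum_congr rfl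
    intro x _
    congr
  rw [h7]
  have h8 : 1 / Real.log N' ^ V ≤ 1 / Real.log N ^ U := by
    apply one_div_le_one_div_of_le (by positivity)
    calc Real.log N ^ U ≤ Real.log N ^ V := pow_le_pow_right₀ hl1 (by omega)
      _ ≤ Real.log N' ^ V := pow_le_pow_left₀ (by linarith) hll _
  linarith

end Pool.Agent.Results.MP_629a14_nt.SimultaneousRepresentations
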